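import Pool.Agent.Helper880_UN.Fin
import Pool.Agent.Helper880_UN.Scl2

/-!
# Grothendieck's period conjecture in torsor form for all members near a fibre with few periods, in all directions

Let `F` be the Fermat polynomial of degree `d` in `m + 2` variables, and let `G` be an integral form of degree `d` such that the
monodromy of the pencil `F + x G` is Zariski dense in `Sp` or `O` (this is true for Lefschetz pencils). The theorem implies (for all
`m`, `d` such that the rank `n` of the primitive cohomology is larger than `4 s`, `s = 1 + φ(d) / 2`; `n ≥ s + 2` for odd `m`) that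
there is an exponent `E = E(m, d, D)`, **which does not depend on `G` and `t`**, such that for **all** these `G`, **all** integers
`t ≥ (|G| + 2)^E` and all number fields `K` of degree at most `D` the period matrix of the hypersurface `t F + G = 0` is in no
`K`-subtorsor of the torsor of all isomorphisms of `H_dR` and `H_B` which respect the polarisation (and the determinant),
except for this torsor itself. In particular this is also the torsor of the isomorphisms which respect all algebraic cycles over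
`K` on all powers, and it is the smallest `K`-subtorsor through the period point, as predicted by the period conjecture. The
number of these hypersurfaces of height at most `T` is at least a constant times `T^(1 + k / E)`, `k` the dimension of the space of
forms. The same is true

* for the products of the hypersurfaces `t F + G_j = 0`, `j ≤ N`, if the monodromy groups of the pencils are independent;
* for the curves `y² = t (x^(2 g + 1) + 1) + h(x)` of genus `g ≥ 3`, `t ≥ (|h| + 2)^E`, `deg h ≤ 2 g`, if the monodromy of the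
  pencil is Zariski dense in `Sp` (for example if the critical values of `(x^(2 g + 1) + 1) / h` are simple);
* in general for the integral points near to a fibre with few periods in families with several parameters;
* for one family over the line at all **rational** points `a / t`, `a ≠ 0`, `t ≥ (|a| + 2)^E`.

Only subtorsors are treated: the Zariski closure of the period point is in no smaller subtorsor over a field of degree at most `D`;
the transcendence degree of the periods is not determined.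

Our theorem `AllFibresFewCentralPeriods` (on `MP_caab05_ag`) is on one family over the line and on the integers `t`: there `E` depends
on `G`, and only the inverses of integers are treated. The hyperelliptic theorems in the starting files of this problem are on the
curves `y² = f(x) (x - t)` for fixed `f` and almost all `t`.

**Setting.** The period matrix of a fibre is `P = C exp (-L M) Z(x)`, where `Z` is an `n × n` matrix of G-functions
over `ℚ`, `M` is nilpotent and rational (the logarithm of the local monodromy, `0` if the fibre over `0` is smooth), `L` is a value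
of `-log x` and `C` is the complex matrix of the central periods. Let `M_0` be another object over `ℚ` with period matrix `C₀`. Up to
one common factor the entries of `C₀` and `C` are algebraic over a field generated by `s` numbers. Let `𝔤` be a Lie algebra of
infinitesimal symmetries of `Z`, normalised by `M`, such that `s` (`s + 1` if `M ≠ 0`) is small with respect to `𝔤` (`Admissible`).
If `𝔤` is the Lie algebra of the differential Galois group then `C 𝔤 C⁻¹` is the Lie algebra of the monodromy group.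

**Theorem, first part (one family).** For all `D`, `C₀`, `C` there is `E` such that for **all** integers `a ≠ 0`,
**all** `t ≥ (|a| + 2)^E`, **all** complex numbers `L`, **all** number fields `K` with `[K : ℚ] ≤ D` and **all** `K`-subtorsors
`T` (defined by equations of any degree) with `C₀ ⊕ P ∈ T`, `P = C exp (-L M) Z(a / t)`:

1. `T` is stable under `1 × ∏ exp (C 𝔤 C⁻¹)`.
2. If the monodromy group is Zariski dense in a classical group, so that `𝔤` contains the Lie algebra of the special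
   isometry group of `B`, then `T` is, in the torsor of all isomorphisms `x_0 ⊕ ⨁ X_j` which respect the
   polarisations, the full inverse image of its image under `(x_0, det X_1, …, det X_N)` (without the determinants in the
   alternating case).
3. In the absolute case `M_0 = ℚ(-1)`, `C₀ = 2 π i`, `T` is equal to the torsor `T_pol` of all isomorphisms which respect the
   polarisations (and determinants) as soon as it is contained in it.

**Theorem, second part (all directions).** Let `I` be an infinite set of one-parameter families `X_(i, j)` over `ℚ`, `j = 1, …, N`,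
through the same fibre `X_0`, with the matrices `Z_(i, j)`, and let `H_i` be natural numbers (the height of `i`). We assume
(`UniformFamily`):

* the entries of `Z_(i, 1), …, Z_(i, N)` are a G-system of bounded degree whose constants are bounded by a power of `H_i + 2`;
* the relations over `ℚ(x)` between the words of each length `δ` in these entries are given by polynomials whose degrees are bounded
  and whose coefficients are bounded by a power of `H_i + 2`.

Let `𝔤^N` consist of infinitesimal symmetries of `(Z_(i, 1), …, Z_(i, N))` for all `i`. For all `D`, `C₀`, `C` there is `E` such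
that for **all** `i ∈ I`, **all** integers `t ≥ (H_i + 2)^E` and **all** complex numbers `L` the conclusions 1, 2, 3 are true for
`C₀ ⊕ P_1 ⊕ … ⊕ P_N`, `P_j = C exp (-L M) Z_(i, j)(1 / t)`.

For example `i = (G_1, …, G_N)` is an `N`-tuple of integral forms, `H_i` is the maximum of their coefficients and `Z_(i, j)` is the
normalised period matrix of `F + x G_j`. Then the first condition follows from the theorem of André that the Gauss-Manin
connection of the universal family is a G-connection in several variables, and from the fact that the expansions of the periods in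
the coefficients of `x G` are G-functions in several variables; the second one is true since (if the monodromy is full and
independent) the relations are generated by the relations `Z Q Zᵀ = J` for the polarisations `Q`, whose entries are rational
functions of the coefficients of `F + x G`, by Cramer's rule. For the first part of the theorem the conditions for the
family `Z(a x)` are proved in Lean (`Scl`, `Scl2`).

Proof (`Pool/Agent/Helper880_UN`, `Helper880_R3`). The theorem on linear independence of values of G-functions (starting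
files, `Y113`) is applied with explicit constants: the products of `δ` entries of the `Z_(i, j)` are again a G-system with
polynomially bounded constants (`tens_uni`), and also a maximal linearly independent subset (`sub_uni`), with the new denominator
`a T`, which does not vanish at `1 / t` since a nonzero integral polynomial with coefficients smaller than `t` has no zero `1 / t`. So
for `t ≥ (H_i + 2)^E` all relations of degree at most `δ` over `ℚ` between the values are specialisations of functional relations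
(`lift`), hence preserved along the curves `exp (s X_j) Z_(i, j)(1 / t)`, `X_j ∈ 𝔤` (`rel_uni`). If the theorem is false take a
sequence of counterexamples with `t_k ≥ (H_(i_k) + 2)^k` and pass to the ultraproduct `ℂ^*`: for each `A ∈ 𝔤` and `j` there is a
derivation `δ` of `ℂ^*` over `ℚ^*` with `δ z_j = A z_j` and `δ z_l = 0` for `l ≠ j`, so that the number `L` and the `s` central
periods are the only obstruction. The rest of the proof is as for one family.
-/

set_option autoImplicit false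

open PowerSeries Filter
open scoped Matrix

namespace Pool.Agent.Results.MP_77d3f5_ag.AllDirections

/-- an integer polynomial as a power series with rational coefficients -/
noncomputable def toQ (P : Polynomial ℤ) : PowerSeries ℚ := ((P.map (Int.castRingHom ℚ) : Polynomial ℚ) : PowerSeries ℚ)

/-- the power series `P(u^e)` -/
noncomputable def atPow (e : ℕ) (P : Polynomial ℤ) : PowerSeries ℂ :=
  ((Polynomial.expand ℂ e (P.map (Int.castRingHom ℂ)) : Polynomial ℂ) : PowerSeries ℂ)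

/-- the matrices `G_s` over `ℤ[x]` with `T^s y^(s) = G_s y` for all solutions `y` of `T y' = A y` -/
noncomputable def iter {r : ℕ} (T : Polynomial ℤ) (A : Fin r → Fin r → Polynomial ℤ) : ℕ → Fin r → Fin r → Polynomial ℤ
  | 0 => fun i j => if i = j then 1 else 0
  | s + 1 => fun i j => T * Polynomial.derivative (iter T A s i j) + ∑ l, iter T A s i l * A l j -
      (s : Polynomial ℤ) * (Polynomial.derivative T * iter T A s i j)

/-- The system `T y' = A y` has a fundamental matrix of solutions of the form `u^(-M) ∑_n Φ_n(u) (log u)^n` with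
`u^e = x` and convergent power series `Φ_n`: the point `0` is regular or a regular singularity with rational
exponents. -/
def QuasiUnipotent {r : ℕ} (T : Polynomial ℤ) (A : Fin r → Fin r → Polynomial ℤ) : Prop :=
  ∃ (e M : ℕ) (K : ℝ) (Φ : Matrix (Fin r) (Fin r) (Polynomial (PowerSeries ℂ))), 1 ≤ e ∧ Φ.det ≠ 0 ∧
    (∀ i j n m, ‖coeff m ((Φ i j).coeff n)‖ ≤ K ^ (m + 1)) ∧
    ∀ i j n, atPow e T * (X * PowerSeries.derivative ℂ ((Φ i j).coeff n) +
        ((n : PowerSeries ℂ) + 1) * (Φ i j).coeff (n + 1) - (M : PowerSeries ℂ) * (Φ i j).coeff n) =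
      (e : PowerSeries ℂ) * X ^ e * ∑ l, atPow e (A i l) * (Φ l j).coeff n

/-- `h_1, ..., h_r` are G-functions with rational coefficients which solve the differential system `T y' = A y`, with
the conditions of Siegel and Galochkin, and `0` is a regular point or a regular singularity with rational exponents of
the system. -/
structure GFamily {r : ℕ} (T : Polynomial ℤ) (A : Fin r → Fin r → Polynomial ℤ) (h : Fin r → PowerSeries ℚ) : Prop where
  /-- the denominator is not zero -/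
  T_ne : T ≠ 0
  /-- the differential equations -/
  ode : ∀ i, toQ T * PowerSeries.derivative ℚ (h i) = ∑ j, toQ (A i j) * h j
  /-- the coefficients have geometric growth -/
  size : ∃ C : ℝ, ∀ i m, |((coeff m (h i) : ℚ) : ℝ)| ≤ C ^ (m + 1)
  /-- the common denominators of the coefficients have geometric growth -/
  den : ∃ C : ℝ, ∀ m : ℕ, ∃ d : ℕ, 0 < d ∧ (d : ℝ) ≤ C ^ (m + 1) ∧ ∀ i, ∀ j ≤ m, ∃ a : ℤ, (d : ℚ) * coeff j (h i) = a
  /-- Galochkin's condition: the common denominators of the matrices `G_s / s!` have geometric growth -/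
  galochkin : ∃ C : ℝ, ∀ m : ℕ, ∃ d : ℕ, 0 < d ∧ (d : ℝ) ≤ C ^ (m + 1) ∧ ∀ s ≤ m, ∀ i j,
    ∃ H : Polynomial ℤ, (d : Polynomial ℤ) * iter T A s i j = (s.factorial : Polynomial ℤ) * H
  /-- the local exponents at `0` are rational and the singularity is regular -/
  regular : QuasiUnipotent T A

section family
variable {n : ℕ}

/-- the entries of a matrix -/
def entries (Z : Matrix (Fin n) (Fin n) (PowerSeries ℚ)) : Fin (n * n) → PowerSeries ℚ := fun a =>
  Z (finProdFinEquiv.symm a).1 (finProdFinEquiv.symm a).2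

/-- rational matrices as complex matrices -/
def toC (M : Matrix (Fin n) (Fin n) ℚ) : Matrix (Fin n) (Fin n) ℂ := M.map fun x : ℚ => (x : ℂ)

/-- the matrix `Z(u)` for a real number `u` -/
noncomputable def valueAt (Z : Matrix (Fin n) (Fin n) (PowerSeries ℚ)) (u : ℝ) : Matrix (Fin n) (Fin n) ℂ :=
  Matrix.of fun i j => ((∑' k : ℕ, ((coeff k (Z i j) : ℚ) : ℝ) * u ^ k : ℝ) : ℂ)

/-- the matrix `C exp (-L M) Z(u)`; it is the period matrix at `u = x` if `L = -log x` -/
noncomputable def periodAt (C : Matrix (Fin n) (Fin n) ℂ) (M : Matrix (Fin n) (Fin n) ℚ) (L : ℂ)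
    (Z : Matrix (Fin n) (Fin n) (PowerSeries ℚ)) (u : ℝ) : Matrix (Fin n) (Fin n) ℂ :=
  C * (NormedSpace.exp ((-L) • toC M) * valueAt Z u)

/-- the matrix of power series with complex coefficients -/
noncomputable def overC (Z : Matrix (Fin n) (Fin n) (PowerSeries ℚ)) : Matrix (Fin n) (Fin n) (PowerSeries ℂ) :=
  Z.map (PowerSeries.map (algebraMap ℚ ℂ))

/-- `X` is an infinitesimal symmetry of `Z`: for all polynomial relations `R(x, Z(x)) = 0` over `ℂ[x]` the derivative of
`R(x, (1 + ε X) Z(x))` at `ε = 0` is zero. -/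
def Symmetry (Z : Matrix (Fin n) (Fin n) (PowerSeries ℚ)) (X : Matrix (Fin n) (Fin n) ℂ) : Prop :=
  ∀ R : MvPolynomial (Fin n × Fin n) (Polynomial ℂ), MvPolynomial.aeval (fun b => overC Z b.1 b.2) R = 0 →
    ∑ b, MvPolynomial.aeval (fun b => overC Z b.1 b.2) (MvPolynomial.pderiv b R) *
      (X.map (PowerSeries.C (R := ℂ)) * overC Z) b.1 b.2 = 0

/-- `𝔤` is closed under commutators -/
def IsLieAlg (𝔤 : Submodule ℂ (Matrix (Fin n) (Fin n) ℂ)) : Prop := ∀ x ∈ 𝔤, ∀ y ∈ 𝔤, x * y - y * x ∈ 𝔤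

/-- all quotients `𝔤 / I` have trivial centre; semisimple Lie algebras have this property -/
def CentreFree (𝔤 : Submodule ℂ (Matrix (Fin n) (Fin n) ℂ)) : Prop :=
  ∀ I : Submodule ℂ (Matrix (Fin n) (Fin n) ℂ), I ≤ 𝔤 → (∀ x ∈ 𝔤, ∀ y ∈ I, x * y - y * x ∈ I) →
    ∀ x ∈ 𝔤, (∀ y ∈ 𝔤, x * y - y * x ∈ I) → x ∈ I

/-- all proper subalgebras of `𝔤` have codimension larger than `r` -/
def NoSmall (r : ℕ) (𝔤 : Submodule ℂ (Matrix (Fin n) (Fin n) ℂ)) : Prop :=
  ∀ 𝔥 : Submodule ℂ (Matrix (Fin n) (Fin n) ℂ), 𝔥 ≤ 𝔤 → IsLieAlg 𝔥 →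
    Module.finrank ℂ 𝔤 ≤ Module.finrank ℂ 𝔥 + r → 𝔤 ≤ 𝔥

/-- nondegenerate alternating forms -/
def Symplectic (B : Matrix (Fin n) (Fin n) ℂ) : Prop := IsUnit B ∧ Bᵀ = -B

/-- The form is zero, or nondegenerate and alternating, or nondegenerate and symmetric of rank different from `2`. -/
def Classical (B : Matrix (Fin n) (Fin n) ℂ) : Prop := B = 0 ∨ Symplectic B ∨ (IsUnit B ∧ Bᵀ = B ∧ n ≠ 2)

/-- The form is zero and `2 r + 2 < n`, or it is nondegenerate and alternating and `r ≤ n - 2`, or nondegenerate and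
symmetric and `4 r < n`, `n ≠ 2`. -/
def Small (r : ℕ) (B : Matrix (Fin n) (Fin n) ℂ) : Prop :=
  (B = 0 ∧ 2 * r + 2 < n) ∨ (Symplectic B ∧ r + 2 ≤ n) ∨ (IsUnit B ∧ Bᵀ = B ∧ n ≠ 2 ∧ 4 * r < n)

/-- `X` is in the Lie algebra of the group of all matrices of determinant `1` which respect `B` -/
def IsInfinitesimal (B X : Matrix (Fin n) (Fin n) ℂ) : Prop := X.trace = 0 ∧ X * B + B * Xᵀ = 0

/-- `𝔤` is a Lie algebra, all its quotients have trivial centre, and all proper subalgebras have codimension larger than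
`r`; or it is the Lie algebra of the special isometry group of a form for which `Small r B` holds (this case is in fact
contained in the first one, as we show). -/
def Admissible (r : ℕ) (𝔤 : Submodule ℂ (Matrix (Fin n) (Fin n) ℂ)) : Prop :=
  (IsLieAlg 𝔤 ∧ CentreFree 𝔤 ∧ NoSmall r 𝔤) ∨ ∃ B, Small r B ∧ ∀ X, X ∈ 𝔤 ↔ IsInfinitesimal B X

/-- up to a common factor the entries of `C₀` and `C` are algebraic over a field generated by `s` numbers -/
def FewPeriods {r : ℕ} (s : ℕ) (C₀ : Matrix (Fin r) (Fin r) ℂ) (C : Matrix (Fin n) (Fin n) ℂ) : Prop :=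
  ∃ (b : Fin s → ℂ) (κ : ℂ), κ ≠ 0 ∧ (∀ i j, IsAlgebraic (IntermediateField.adjoin ℚ (Set.range b)) (κ * C₀ i j)) ∧
    ∀ i j, IsAlgebraic (IntermediateField.adjoin ℚ (Set.range b)) (κ * C i j)

end family

section uniform
variable {σ : Type} [Fintype σ]

/-- the divided derivative `f^(k) / k!` of a power series -/
noncomputable def divided (k : ℕ) (f : PowerSeries ℚ) : PowerSeries ℚ :=
  PowerSeries.mk fun m => ((m + k).choose k : ℚ) * coeff (m + k) f

/-- The power series `h_s` are a G-system with the denominator `T`, the degree `q` and the constant `C`: the coefficients and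
their common denominators satisfy the conditions of Siegel with the constant `C`, and `T^s h^(s) / s!` is `G_s h`, where the
degrees and coefficients of the matrices `G_s` and their common denominators satisfy the condition of Galochkin. -/
structure GSystem (q : ℕ) (C : ℝ) (T : Polynomial ℤ) (h : σ → PowerSeries ℚ) : Prop where
  one_le : 1 ≤ C
  degT : T.natDegree ≤ q
  sizeT : ∀ l, |((T.coeff l : ℤ) : ℝ)| ≤ C
  size : ∀ i m, |((coeff m (h i) : ℚ) : ℝ)| ≤ C ^ (m + 1)
  den : ∀ m, ∃ d : ℕ, 0 < d ∧ (d : ℝ) ≤ C ^ (m + 1) ∧ ∀ i, ∀ j ≤ m, ∃ a : ℤ, (d : ℚ) * coeff j (h i) = a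
  der : ∀ k, ∃ g : ℕ, 0 < g ∧ (g : ℝ) ≤ C ^ (k + 1) ∧ ∀ s ≤ k, ∃ G : σ → σ → Polynomial ℤ,
    (∀ i j, (G i j).natDegree ≤ q * s) ∧ (∀ i j l, |(((G i j).coeff l : ℤ) : ℝ)| ≤ C ^ (k + 1)) ∧
    ∀ i, (g : PowerSeries ℚ) * (toQ T ^ s * divided s (h i)) = ∑ j, toQ (G i j) * h j

/-- the words of length `δ` in the power series `1` and `h_s` -/
noncomputable def word {δ : ℕ} (h : σ → PowerSeries ℚ) (b : Fin δ → Option σ) : PowerSeries ℚ := ∏ j, (b j).elim 1 h

/-- integer polynomials of degree at most `E` with coefficients of size at most `(H + 2)^E` -/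
def Bounded (E H : ℕ) (P : Polynomial ℤ) : Prop := P.natDegree ≤ E ∧ ∀ l, |((P.coeff l : ℤ) : ℝ)| ≤ ((H : ℝ) + 2) ^ E

/-- The families `h_i` (`i ∈ I`) of power series are G-systems of bounded degree whose constants are bounded by a power of
`H_i + 2`, and the same is true for the relations over `ℚ(x)` between the words of each length: there is a basis `B` of the
span of the words such that the coordinates of all words are small. -/
structure UniformFamily {I : Type} (H : I → ℕ) (h : I → σ → PowerSeries ℚ) : Prop where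
  system : ∃ q E : ℕ, ∀ i, ∃ T : Polynomial ℤ, T ≠ 0 ∧ GSystem q (((H i : ℝ) + 2) ^ E) T (h i)
  relations : ∀ δ : ℕ, ∃ E : ℕ, ∀ i, ∃ (B : Finset (Fin δ → Option σ)) (a : Polynomial ℤ)
    (M : (Fin δ → Option σ) → B → Polynomial ℤ), (fun _ => none) ∈ B ∧
    LinearIndependent (Polynomial ℚ) (fun b : B => word (h i) b.1) ∧ a ≠ 0 ∧ Bounded E (H i) a ∧
    (∀ b β, Bounded E (H i) (M b β)) ∧ ∀ b, toQ a * word (h i) b = ∑ β, toQ (M b β) * word (h i) β.1

/-- the entries of the matrices `Z_1, …, Z_N` -/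
def allEntries {n N : ℕ} (Z : Fin N → Matrix (Fin n) (Fin n) (PowerSeries ℚ)) (a : Fin N × Fin n × Fin n) : PowerSeries ℚ :=
  Z a.1 a.2.1 a.2.2

/-- `(X_1, …, X_N)` is an infinitesimal symmetry of `(Z_1, …, Z_N)`: for all polynomial relations `R(x, Z_1(x), …, Z_N(x)) = 0`
over `ℂ[x]` the derivative of `R(x, (1 + ε X_1) Z_1(x), …, (1 + ε X_N) Z_N(x))` at `ε = 0` is zero. -/
def JointSymmetry {n N : ℕ} (Z : Fin N → Matrix (Fin n) (Fin n) (PowerSeries ℚ)) (X : Fin N → Matrix (Fin n) (Fin n) ℂ) : Prop :=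
  ∀ R : MvPolynomial (Fin N × Fin n × Fin n) (Polynomial ℂ), MvPolynomial.aeval (fun b => overC (Z b.1) b.2.1 b.2.2) R = 0 →
    ∑ b, MvPolynomial.aeval (fun b => overC (Z b.1) b.2.1 b.2.2) (MvPolynomial.pderiv b R) *
      ((X b.1).map (PowerSeries.C (R := ℂ)) * overC (Z b.1)) b.2.1 b.2.2 = 0

end uniform

/-- `T` is (the set of complex points of) a `K`-subtorsor of `GL_B = Iso (M_dR, M_B)`: it is closed under `x y⁻¹ z`, and
it is defined in `GL_B` by polynomials with coefficients in `K`. -/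
def IsSubtorsor (K : Subfield ℂ) {B : Type} [Fintype B] [DecidableEq B] (T : Set (Matrix B B ℂ)) : Prop :=
  (∀ x ∈ T, ∀ y ∈ T, ∀ z ∈ T, x * y⁻¹ * z ∈ T) ∧ ∃ I : Set (MvPolynomial (B × B) K), ∀ x : Matrix B B ℂ, x ∈ T ↔
    IsUnit x ∧ ∀ p ∈ I, MvPolynomial.eval (fun b => x b.1 b.2) (MvPolynomial.map (algebraMap K ℂ) p) = 0

section
variable {n N r : ℕ}

/-- the block matrix `x ⊕ X_1 ⊕ … ⊕ X_N` -/
def total (x : Matrix (Fin r) (Fin r) ℂ) (X : Fin N → Matrix (Fin n) (Fin n) ℂ) :
    Matrix (Fin r ⊕ (Fin n × Fin N)) (Fin r ⊕ (Fin n × Fin N)) ℂ :=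
  Matrix.fromBlocks x 0 0 (Matrix.blockDiagonal X)

/-- the isomorphisms `X_j` respect the polarisations `Q_j` (de Rham) and `B` (Betti) up to the factors `μ_j` -/
def Respects (B : Matrix (Fin n) (Fin n) ℂ) (Q : Fin N → Matrix (Fin n) (Fin n) ℂ) (μ : Fin N → ℂ)
    (X : Fin N → Matrix (Fin n) (Fin n) ℂ) : Prop :=
  (∀ j, μ j ≠ 0) ∧ ∀ j, X j * Q j * (X j)ᵀ = μ j • B

/-- The isomorphisms `z ⊕ … ⊕ z ⊕ X_1 ⊕ … ⊕ X_N` of an `r`-fold sum of the object `ℚ(-1)` and of the `M_j` which respect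
the polarisations, with values in `ℚ(-w_j)`, and the identifications of `det M_j` with `ℚ(-m_j)` up to a twist. -/
def torsorOf (r : ℕ) (B : Matrix (Fin n) (Fin n) ℂ) (Q : Fin N → Matrix (Fin n) (Fin n) ℂ) (w m : Fin N → ℤ)
    (δ : Fin N → ℂ) : Set (Matrix (Fin r ⊕ (Fin n × Fin N)) (Fin r ⊕ (Fin n × Fin N)) ℂ) :=
  {y | ∃ z : ℂ, z ≠ 0 ∧ ∃ X : Fin N → Matrix (Fin n) (Fin n) ℂ, y = total (z • 1) X ∧
    ∀ j, X j * Q j * (X j)ᵀ = z ^ (w j) • B ∧ (Symplectic B ∨ (X j).det = δ j * z ^ (m j))}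

/-- The conclusion for one tuple of parameters; `P j` is the period matrix of the fibre. -/
def Good (D : ℕ) (C₀ : Matrix (Fin r) (Fin r) ℂ) (C : Matrix (Fin n) (Fin n) ℂ)
    (𝔤 : Submodule ℂ (Matrix (Fin n) (Fin n) ℂ)) (P : Fin N → Matrix (Fin n) (Fin n) ℂ) : Prop :=
  ∀ K : Subfield ℂ, FiniteDimensional ℚ K → Module.finrank ℚ K ≤ D →
  ∀ T : Set (Matrix (Fin r ⊕ (Fin n × Fin N)) (Fin r ⊕ (Fin n × Fin N)) ℂ), IsSubtorsor K T → total C₀ P ∈ T →
  -- 1: stability
  (∀ X : Fin N → Matrix (Fin n) (Fin n) ℂ, (∀ j, X j ∈ 𝔤) → ∀ x ∈ T,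
    total 1 (fun j => NormedSpace.exp (C * X j * C⁻¹)) * x ∈ T) ∧
  -- 2: classical monodromy groups, relative case
  (∀ B : Matrix (Fin n) (Fin n) ℂ, Classical B → (∀ X, IsInfinitesimal B X → X ∈ 𝔤) →
    ∀ (Q : Fin N → Matrix (Fin n) (Fin n) ℂ) (μ : Fin N → ℂ) (x₀ : Matrix (Fin r) (Fin r) ℂ)
      (X Y : Fin N → Matrix (Fin n) (Fin n) ℂ), Respects (C * B * Cᵀ) Q μ X → Respects (C * B * Cᵀ) Q μ Y →
      (∀ j, Symplectic B ∨ (X j).det = (Y j).det) → total x₀ X ∈ T → total x₀ Y ∈ T) ∧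
  -- 3: classical monodromy groups, absolute case
  (0 < r → C₀ = (2 * Real.pi * Complex.I : ℂ) • 1 →
    ∀ B : Matrix (Fin n) (Fin n) ℂ, Classical B → (∀ X, IsInfinitesimal B X → X ∈ 𝔤) →
    ∀ (Q : Fin N → Matrix (Fin n) (Fin n) ℂ) (w m : Fin N → ℤ) (δ : Fin N → ℂ),
      T ⊆ torsorOf r (C * B * Cᵀ) Q w m δ → T = torsorOf r (C * B * Cᵀ) Q w m δ)

end

theorem iter_eq {r : ℕ} (T : Polynomial ℤ) (A : Fin r → Fin r → Polynomial ℤ) (s : ℕ) :
    iter T A s = Pool.Agent.Y120.GH.itm T A s := by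
  induction s with
  | zero => rfl
  | succ s ih =>
    funext i j
    rw [iter, Pool.Agent.Y120.GH.itm, ih]

theorem qu_eq {r : ℕ} {T : Polynomial ℤ} {A : Fin r → Fin r → Polynomial ℤ} (h : QuasiUnipotent T A) :
    Pool.Agent.Y120.GH.QU0 T A := by
  obtain ⟨e, M, K, Φ, he, hdet, hc, heq⟩ := h
  have he0 : e ≠ 0 := by omega
  refine ⟨e, he0, M, K, Φ, hc, fun i j n => ?_, hdet⟩
  have h1 := heq i j n
  simp only [atPow] at h1
  rw [Pool.Agent.Y120.GH.expand_poly he0]
  simp only [Pool.Agent.Y120.GH.expand_poly he0]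
  exact h1

theorem gal_eq {r : ℕ} {T : Polynomial ℤ} {A : Fin r → Fin r → Polynomial ℤ} {h : Fin r → PowerSeries ℚ}
    (hG : GFamily T A h) : ∃ C : ℝ, ∀ m, ∃ d : ℕ, 0 < d ∧ (d : ℝ) ≤ C ^ (m + 1) ∧ ∀ s ≤ m, ∀ i j, ∃ H : Polynomial ℤ,
      (d : Polynomial ℤ) * Pool.Agent.Y120.GH.itm T A s i j = (s.factorial : Polynomial ℤ) * H := by
  obtain ⟨C, hC⟩ := hG.galochkin
  refine ⟨C, fun m => ?_⟩
  obtain ⟨d, h1, h2, h3⟩ := hC m
  refine ⟨d, h1, h2, fun s hs i' j' => ?_⟩
  rw [← iter_eq]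
  exact h3 s hs i' j'

theorem map_eq {n : ℕ} (M : Matrix (Fin n) (Fin n) ℚ) : toC M = Pool.Agent.Y119.HY.cm M := by
  ext i j
  rw [Pool.Agent.Y119.HY.cm_apply]
  rfl

theorem sym_inf {n : ℕ} {Z : Matrix (Fin n) (Fin n) (PowerSeries ℚ)} {X : Matrix (Fin n) (Fin n) ℂ} (h : Symmetry Z X) :
    Pool.Agent.Helper880_R3.Inf Z X := by
  intro R hR
  refine Eq.trans ?_ (h R hR)
  unfold Pool.Agent.Helper880_R3.DX
  rw [map_sum]
  refine Finset.sum_congr rfl fun b _ => ?_
  rw [map_mul, map_sum, Matrix.mul_apply]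
  refine congrArg₂ (· * ·) rfl (Finset.sum_congr rfl fun l _ => ?_)
  rw [map_mul, MvPolynomial.aeval_C, MvPolynomial.aeval_X, Matrix.map_apply, Matrix.map_apply]
  have h1 : algebraMap (Polynomial ℂ) (PowerSeries ℂ) (Polynomial.C (X b.1 l)) = PowerSeries.C (X b.1 l) :=
    Polynomial.coe_C _
  rw [h1]
  rfl

theorem uf_of {I : Type} {H : I → ℕ} {σ : Type} [Fintype σ] {h : I → σ → PowerSeries ℚ} (hU : UniformFamily H h) :
    Pool.Agent.Helper880_UN.UF H h := by
  refine ⟨?_, fun δ => ?_⟩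
  · obtain ⟨q, E, h1⟩ := hU.system
    refine ⟨q, E, fun i => ?_⟩
    obtain ⟨T, hT, hS⟩ := h1 i
    exact ⟨T, hT, hS.one_le, hS.degT, hS.sizeT, hS.size, hS.den, hS.der⟩
  · obtain ⟨E, h1⟩ := hU.relations δ
    exact ⟨E, h1⟩

theorem joint_inf {n N : ℕ} {Z : Fin N → Matrix (Fin n) (Fin n) (PowerSeries ℚ)} {X : Fin N → Matrix (Fin n) (Fin n) ℂ}
    (h : JointSymmetry Z X) : Pool.Agent.Helper880_UN.InfJ Z X := by
  intro R hR
  refine Eq.trans ?_ (h R hR)
  unfold Pool.Agent.Helper880_UN.DJ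
  rw [map_sum]
  refine Finset.sum_congr rfl fun b _ => ?_
  rw [map_mul, map_sum, Matrix.mul_apply]
  refine congrArg₂ (· * ·) rfl (Finset.sum_congr rfl fun l _ => ?_)
  rw [map_mul, MvPolynomial.aeval_C, MvPolynomial.aeval_X, Matrix.map_apply]
  exact congrArg₂ (· * ·) (Polynomial.coe_C _) rfl

theorem small_cod {n r : ℕ} (hn : 0 < n) {B : Matrix (Fin n) (Fin n) ℂ} (h : Small r B) :
    CentreFree (Pool.Agent.Helper880_R3.lieB B) ∧ NoSmall r (Pool.Agent.Helper880_R3.lieB B) := by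
  rcases h with ⟨rfl, h⟩ | ⟨⟨h1, h2⟩, h3⟩ | ⟨h1, h2, h3, h4⟩
  · exact ⟨Pool.Agent.Helper880_R3.cf_sl hn, Pool.Agent.Helper880_R3.cod_sl h⟩
  · have hB := (Matrix.isUnit_iff_isUnit_det _).1 h1
    refine ⟨Pool.Agent.Helper880_R3.cf_form (ε := -1) hB (by ring) (by rw [h2, neg_one_smul]) ?_,
      Pool.Agent.Helper880_R3.cod_sp hB h2 (by omega) (by omega)⟩
    have h5 : (8 : ℂ) - 4 * -1 * n = ((8 + 4 * n : ℕ) : ℂ) := by
      push_cast
      ring
    rw [h5]
    exact_mod_cast (by omega : 8 + 4 * n ≠ 0)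
  · have hB := (Matrix.isUnit_iff_isUnit_det _).1 h1
    refine ⟨Pool.Agent.Helper880_R3.cf_form (ε := 1) hB (by ring) (by rw [h2, one_smul]) ?_,
      Pool.Agent.Helper880_R3.cod_so hB h2 h4⟩
    intro h5
    have h6 : (n : ℂ) = ((2 : ℕ) : ℂ) := by
      push_cast
      linear_combination (-1 / 4 : ℂ) * h5
    exact h3 (by exact_mod_cast h6)

theorem adm {n r : ℕ} (hn : 0 < n) {𝔤 : Submodule ℂ (Matrix (Fin n) (Fin n) ℂ)} (h : Admissible r 𝔤) :
    IsLieAlg 𝔤 ∧ CentreFree 𝔤 ∧ NoSmall r 𝔤 := by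
  rcases h with h | ⟨B, hB, h⟩
  · exact h
  · have h1 : 𝔤 = Pool.Agent.Helper880_R3.lieB B := Submodule.ext h
    rw [h1]
    exact ⟨Pool.Agent.Helper880_R3.lieB_lie B, small_cod hn hB⟩

theorem value_sc {n : ℕ} (Z : Matrix (Fin n) (Fin n) (PowerSeries ℚ)) (g : ℤ) (t : ℕ) :
    Pool.Agent.Y118.HV.Hv (Pool.Agent.Helper880_UN.scZ g Z) t = valueAt Z ((g : ℝ) / t) := by
  ext i j
  show ((∑' k : ℕ, ((coeff k (rescale (g : ℚ) (Z i j)) : ℚ) : ℝ) * (1 / (t : ℝ)) ^ k : ℝ) : ℂ) =
    ((∑' k : ℕ, ((coeff k (Z i j) : ℚ) : ℝ) * ((g : ℝ) / t) ^ k : ℝ) : ℂ)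
  congr 2
  funext k
  rw [coeff_rescale]
  push_cast
  rw [div_pow, div_pow, one_pow]
  ring

/-- the conclusion from the stability -/
theorem good_of {n N r₀ D : ℕ} (hN : 0 < N) {𝔤 : Submodule ℂ (Matrix (Fin n) (Fin n) ℂ)} {C₀ : Matrix (Fin r₀) (Fin r₀) ℂ}
    {C : Matrix (Fin n) (Fin n) ℂ} {W : Fin N → Matrix (Fin n) (Fin n) ℂ}
    (h : ∀ K : Subfield ℂ, FiniteDimensional ℚ K → Module.finrank ℚ K ≤ D →
      ∀ T : Set (Matrix (Fin r₀ ⊕ (Fin n × Fin N)) (Fin r₀ ⊕ (Fin n × Fin N)) ℂ), IsSubtorsor K T →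
      total C₀ (fun j => C * W j) ∈ T → ∀ X : Fin N → Matrix (Fin n) (Fin n) ℂ, (∀ j, X j ∈ 𝔤) → ∀ x ∈ T,
        total 1 (fun j => NormedSpace.exp (C * X j * C⁻¹)) * x ∈ T) :
    Good D C₀ C 𝔤 fun j => C * W j := by
  intro K hK hKD S hS hmem
  have hS' := Pool.Agent.Y123.ST.subT_iff.1 hS
  have hst := h K hK hKD S hS hmem
  have hC : IsUnit C.det := by
    have h1 := (Pool.Agent.Helper880_R3.Tot_unit (hS'.isUnit _ hmem)).2 ⟨0, hN⟩
    have h2 := (Matrix.isUnit_iff_isUnit_det _).1 h1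
    rw [Matrix.det_mul] at h2
    exact isUnit_of_mul_isUnit_left h2
  have hgrp : ∀ B : Matrix (Fin n) (Fin n) ℂ, Classical B → (∀ X, IsInfinitesimal B X → X ∈ 𝔤) →
      ∀ g : Fin N → (Matrix (Fin n) (Fin n) ℂ)ˣ, (∀ j, g j ∈ Pool.Agent.Y123.GN.GB (C * B * Cᵀ)) →
      ∀ x ∈ S, total 1 (fun j => (g j : Matrix (Fin n) (Fin n) ℂ)) * x ∈ S := fun B hB hB𝔤 g hg x hx =>
    Pool.Agent.Helper880_R3.grp_stab hS' hC (fun Y hY => hst Y fun j => hB𝔤 _ (hY j)) hB g hg hx
  refine ⟨hst, ?_, ?_⟩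
  · intro B hB hB𝔤 Q μ x₀ X Y hX hY hd hx
    exact Pool.Agent.Helper880_R3.fibre_full hS' (hgrp B hB hB𝔤) hX.1 hx hX.2 hY.2 fun j =>
      (hd j).imp (fun h => Pool.Agent.Helper880_R3.Spf_conj hC h) id
  · intro hr hC₀ B hB hB𝔤 Q w m δ hSF
    have hKalg : ∀ x ∈ K, IsAlgebraic ℚ x := by
      intro x hx
      have : NumberField K := { to_charZero := inferInstance, to_finiteDimensional := hK }
      have h6 : IsAlgebraic ℚ (⟨x, hx⟩ : K) := Algebra.IsAlgebraic.isAlgebraic _
      exact h6.algebraMap (A := ℂ)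
    rw [hC₀] at hmem
    exact Pool.Agent.Helper880_R3.absolute hKalg hr hS' hmem (hgrp B hB hB𝔤) hSF

theorem uniform (n N : ℕ) (hn : 0 < n) (hN : 0 < N) (I : Type) (H : I → ℕ)
    (Z : I → Fin N → Matrix (Fin n) (Fin n) (PowerSeries ℚ)) (hU : UniformFamily H fun i => allEntries (Z i))
    (M : Matrix (Fin n) (Fin n) ℚ) (hM : M ^ n = 0) (𝔤 : Submodule ℂ (Matrix (Fin n) (Fin n) ℂ)) (r : ℕ) (h𝔤 : Admissible r 𝔤)
    (hI : ∀ i X, (∀ j, X j ∈ 𝔤) → JointSymmetry (Z i) X) (hM𝔤 : ∀ X ∈ 𝔤, toC M * X - X * toC M ∈ 𝔤)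
    (D r₀ s : ℕ) (C₀ : Matrix (Fin r₀) (Fin r₀) ℂ) (C : Matrix (Fin n) (Fin n) ℂ) (hfew : FewPeriods s C₀ C)
    (hs : s + (if M = 0 then 0 else 1) ≤ r) :
    ∃ E : ℕ, ∀ (i : I) (t : ℕ), (H i + 2) ^ E ≤ t → ∀ L : ℂ, Good D C₀ C 𝔤 fun j => periodAt C M L (Z i j) (1 / (t : ℝ)) := by
  obtain ⟨hL, hq, hc⟩ := adm hn h𝔤
  rw [map_eq] at hM𝔤
  obtain ⟨E, hE⟩ := Pool.Agent.Helper880_UN.final_uni hn (uf_of hU) hL hq hc (fun i X hX => joint_inf (hI i X hX)) hM hM𝔤 D r₀ s
    C₀ C hfew hs
  refine ⟨E, fun i t ht L => good_of hN fun K hK hKD S hS hmem X hX x hx => ?_⟩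
  refine hE i t ht L K hK hKD S (Pool.Agent.Y123.ST.subT_iff.1 hS) ?_ X hX x hx
  rw [map_eq] at hmem
  exact hmem

theorem rational (n : ℕ) (hn : 0 < n) (T : Polynomial ℤ) (A : Fin (n * n) → Fin (n * n) → Polynomial ℤ)
    (Z : Matrix (Fin n) (Fin n) (PowerSeries ℚ)) (hG : GFamily T A (entries Z)) (M : Matrix (Fin n) (Fin n) ℚ)
    (hM : M ^ n = 0) (𝔤 : Submodule ℂ (Matrix (Fin n) (Fin n) ℂ)) (r : ℕ) (h𝔤 : Admissible r 𝔤)
    (hI : ∀ X ∈ 𝔤, Symmetry Z X) (hM𝔤 : ∀ X ∈ 𝔤, toC M * X - X * toC M ∈ 𝔤)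
    (D r₀ s : ℕ) (C₀ : Matrix (Fin r₀) (Fin r₀) ℂ) (C : Matrix (Fin n) (Fin n) ℂ) (hfew : FewPeriods s C₀ C)
    (hs : s + (if M = 0 then 0 else 1) ≤ r) :
    ∃ E : ℕ, ∀ (g : ℤ) (t : ℕ), g ≠ 0 → (g.natAbs + 2) ^ E ≤ t → ∀ L : ℂ,
      Good D C₀ C 𝔤 fun _ : Fin 1 => periodAt C M L Z ((g : ℝ) / t) := by
  obtain ⟨hL, hq, hc⟩ := adm hn h𝔤
  obtain ⟨q', C', hG'⟩ := Pool.Agent.Y120.GH.gsys_of hG.ode hG.size hG.den (gal_eq hG)
  rw [map_eq] at hM𝔤
  obtain ⟨E, hE⟩ := Pool.Agent.Helper880_UN.final_uni (N := 1) hn (Pool.Agent.Helper880_UN.uf_scZ hG.T_ne hG') hL hq hc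
    (fun g X hX => by
      have h1 : X = fun _ => X 0 := funext fun j => by rw [Subsingleton.elim j 0]
      rw [h1]
      exact Pool.Agent.Helper880_UN.infJ_sc (sym_inf (hI _ (hX 0))) g.2) hM hM𝔤 D r₀ s C₀ C hfew hs
  refine ⟨E, fun g t hg ht L => good_of one_pos fun K hK hKD S hS hmem X hX x hx => ?_⟩
  refine hE ⟨g, hg⟩ t ht L K hK hKD S (Pool.Agent.Y123.ST.subT_iff.1 hS) ?_ X hX x hx
  rw [map_eq] at hmem
  have h1 : (fun _ : Fin 1 => C * (NormedSpace.exp ((-L) • Pool.Agent.Y119.HY.cm M) * valueAt Z ((g : ℝ) / t))) =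
      fun _ : Fin 1 => C * (NormedSpace.exp ((-L) • Pool.Agent.Y119.HY.cm M) *
        Pool.Agent.Y118.HV.Hv (Pool.Agent.Helper880_UN.scZ g Z) t) := by
    funext j
    rw [value_sc]
  rw [← h1]
  exact hmem

/-- **The theorem.** The first part is on the rational points of the parameter lines of families, the second one on uniform
families. -/
theorem result :
    (∀ (n : ℕ) (_ : 0 < n) (T : Polynomial ℤ) (A : Fin (n * n) → Fin (n * n) → Polynomial ℤ)
      (Z : Matrix (Fin n) (Fin n) (PowerSeries ℚ)) (_ : GFamily T A (entries Z)) (M : Matrix (Fin n) (Fin n) ℚ)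
      (_ : M ^ n = 0) (𝔤 : Submodule ℂ (Matrix (Fin n) (Fin n) ℂ)) (r : ℕ) (_ : Admissible r 𝔤) (_ : ∀ X ∈ 𝔤, Symmetry Z X)
      (_ : ∀ X ∈ 𝔤, toC M * X - X * toC M ∈ 𝔤) (D r₀ s : ℕ) (C₀ : Matrix (Fin r₀) (Fin r₀) ℂ) (C : Matrix (Fin n) (Fin n) ℂ),
      FewPeriods s C₀ C → s + (if M = 0 then 0 else 1) ≤ r →
      ∃ E : ℕ, ∀ (g : ℤ) (t : ℕ), g ≠ 0 → (g.natAbs + 2) ^ E ≤ t → ∀ L : ℂ,
        Good D C₀ C 𝔤 fun _ : Fin 1 => periodAt C M L Z ((g : ℝ) / t)) ∧
    ∀ (n N : ℕ) (_ : 0 < n) (_ : 0 < N) (I : Type) (H : I → ℕ) (Z : I → Fin N → Matrix (Fin n) (Fin n) (PowerSeries ℚ))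
      (_ : UniformFamily H fun i => allEntries (Z i)) (M : Matrix (Fin n) (Fin n) ℚ) (_ : M ^ n = 0)
      (𝔤 : Submodule ℂ (Matrix (Fin n) (Fin n) ℂ)) (r : ℕ) (_ : Admissible r 𝔤)
      (_ : ∀ i X, (∀ j, X j ∈ 𝔤) → JointSymmetry (Z i) X) (_ : ∀ X ∈ 𝔤, toC M * X - X * toC M ∈ 𝔤)
      (D r₀ s : ℕ) (C₀ : Matrix (Fin r₀) (Fin r₀) ℂ) (C : Matrix (Fin n) (Fin n) ℂ),
      FewPeriods s C₀ C → s + (if M = 0 then 0 else 1) ≤ r →
      ∃ E : ℕ, ∀ (i : I) (t : ℕ), (H i + 2) ^ E ≤ t → ∀ L : ℂ,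
        Good D C₀ C 𝔤 fun j => periodAt C M L (Z i j) (1 / (t : ℝ)) :=
  ⟨fun n hn T A Z hG M hM 𝔤 r h𝔤 hI hM𝔤 D r₀ s C₀ C hfew hs =>
    rational n hn T A Z hG M hM 𝔤 r h𝔤 hI hM𝔤 D r₀ s C₀ C hfew hs,
  fun n N hn hN I H Z hU M hM 𝔤 r h𝔤 hI hM𝔤 D r₀ s C₀ C hfew hs =>
    uniform n N hn hN I H Z hU M hM 𝔤 r h𝔤 hI hM𝔤 D r₀ s C₀ C hfew hs⟩

end Pool.Agent.Results.MP_77d3f5_ag.AllDirections
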