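import Pool.Agent.H621.BC.Dec
import Pool.Agent.H621.BC.Grp
import Pool.Agent.R917.OM.Grp

set_option autoImplicit false

/-!
# The period conjecture for products with a fixed variety: a bound for the exceptional factors

Let `M₀` be any object with periods over the field `ℚ̄` of algebraic numbers, for example the motive
`H^*(X)` of a smooth projective variety `X`, or any mixed motive. Only its comparison isomorphism
will be used, which is an invertible complex matrix `C₀` of size `r`. Nothing is known about the
algebraic relations between its entries. The motivic torsor of periods of `M₀ ⊕ H_1(A)`, for an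
abelian variety `A` over `ℚ̄`, is a torsor under the motivic Galois group `G_mot(M₀ ⊕ H_1(A))`. If
`A` has no simple factor which occurs in the Tannakian category generated by `M₀`, and no complex
multiplication, then one expects that `G_mot(M₀ ⊕ H_1(A))` contains `1 × Hg(A)`, `Hg(A)` the Hodge
group of `A`. The period conjecture says that the Zariski closure over `ℚ̄` of the comparison
isomorphism is the whole motivic torsor. A consequence is that every algebraic group
`G ⊆ GL(M₀ ⊕ H_1(A))` over `ℚ`, with a torsor over `ℚ̄` which contains the comparison isomorphism,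
contains `1 × Hg(A)`.

**Theorem.** Let `C₀` be any invertible complex matrix of size `r`. There are `m ≤ r / 2` simple
abelian varieties `B_1, ..., B_m` over `ℚ̄` such that the following holds for all abelian varieties
`A` over `ℚ̄` which are isogenous to products of

* elliptic curves without complex multiplication,
* abelian varieties `B` with real multiplication: `End(B) ⊗ ℚ = F` totally real, `[F : ℚ] = dim B`,
* abelian varieties `B` with quaternion multiplication: `End(B) ⊗ ℚ` a totally indefinite
  quaternion algebra over a totally real field `F` with `2 [F : ℚ] = dim B`: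

if none of the `B_k` is a factor of `A`, then every algebraic group `G ⊆ GL_{r + 2 dim A}` over `ℚ`,
with a torsor over `ℚ̄` which contains the matrix `C₀ ⊕ (periods of A)`, contains `1 × Hg(A)`.

More generally let `C₀` be block triangular, with blocks of sizes `r_l` (`M₀` has a filtration, for
example the weight filtration). Then `m ≤ ∑ l, ⌊r_l / 2⌋`. So there are no exceptions if `M₀` is a
successive extension of objects of rank one, for example a mixed Tate motive.

The bound is sharp: if `M₀` is the sum of the `H_1` of elliptic curves `E_1, ..., E_m` which are not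
isogenous (and have no complex multiplication), then `r = 2 m` and the graph of an isomorphism
`H_1(A) → H_1(E_k)` gives a group `G` which does not contain `1 × Hg(A)`, for `A = E_k`.

For `r = 0` this is the known theorem that the period torsors of products of elliptic curves without
complex multiplication (Kreutz, Shen, Vial), and of the other abelian varieties of the list, have
no smaller subtorsors. The point is that nothing at all is assumed about `M₀`. One can take for `M₀`
the cohomology of a variety about the periods of which nothing is known.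

In the formal statement the simple abelian varieties `B_k` are given by planes: `B_k` is the simple
factor of an abelian variety `X_k` (of the same type as `A`) to which the plane `V_k` in
`H_1(X_k, ℂ)` belongs. The condition on `A` is that all homomorphisms `X_k → A` vanish on `V_k`. This
says that `B_k` is not a factor of `A`, since `V_k` generates `H_1(B_k)` under the Galois group.

## Proof

1. Let `𝔏` be the Lie algebra over `ℚ` which is generated by the rational components of the matrices
`D(c) c⁻¹`, `c` the comparison isomorphism of `M₀ ⊕ H_1(A)`, `D` a derivation of `ℂ` over `ℚ̄`. It is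
contained in the Lie algebra of `G`, for all `G`. Up to scalars `𝔏` acts on `H_1(A, ℚ)` semisimply,
with the commutant `End(A) ⊗ ℚ`, by the theorem of Wüstholz (`full_q1`). The same is true for a
family of abelian varieties `X_k`, and a linear map between the homology groups of `X_k` and `X_l`
which commutes with `𝔏` is a homomorphism (`isHom_of_comm`).

2. By a theorem of Goursat type (`Gd.single`) the image of `𝔏 ⊗ ℂ` in the product of the `sl_2` of
planes which are not related by homomorphisms is the whole product (`gdp`).

3. The plane `V` of `A` is captured by `M₀` if the elements `(0, y)` of `𝔏 ⊗ ℂ` act trivially on `V`.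
If no plane of `A` is captured then `𝔏` contains `0 × Lie Hg(A)` (`free_of`), and it follows that
`G` contains the image of the circle, that is, of the Hodge structure (`hodge_mem`).

4. If the planes `V_1, ..., V_m` are captured and not related by homomorphisms then the image `𝔏₀` of
`𝔏 ⊗ ℂ` in `gl_r` maps onto `sl_2 ^ m`. We prove that then `2 m ≤ r` (`bound`): for an irreducible
representation the Lie algebra is reductive, and `sl_2 ^ m` can be lifted to an ideal; commuting
`sl_2`-triples are treated with the Weyl elements, which change the signs of the weights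
(`sl2_bound`). For a representation with a stable subspace `U` the ideal which acts trivially on `U`
maps onto the product of some of the `sl_2`, and acts on the quotient (`Cap.split`).
-/

open Module Matrix Pool.Agent.Y102 Pool.Agent.W516.DR Pool.Agent.H204R3.GP

noncomputable section

namespace Pool.Agent.Results.MP_77d3f5_ag.BoundedCapture

variable {g : ℕ} (A : AbVar g)

/-! ### The decomposition of the homology into planes -/

/-- The endomorphisms of the rational homology `H_1(A, ℚ) = ℚ^(2g)` (the basis is the basis of the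
lattice). -/
abbrev EndH (g : ℕ) : Type := Module.End ℚ (Fin (2 * g) → ℚ)

/-- The endomorphisms of the complex homology `H_1(A, ℂ) = ℂ^(2g)`. -/
abbrev MatC (g : ℕ) : Type := Matrix (Fin (2 * g)) (Fin (2 * g)) ℂ

/-- The complex matrix of a rational linear map. -/
def mat {g g' : ℕ} (T : (Fin (2 * g) → ℚ) →ₗ[ℚ] (Fin (2 * g') → ℚ)) :
    Matrix (Fin (2 * g')) (Fin (2 * g)) ℂ := (LinearMap.toMatrix' T).map (algebraMap ℚ ℂ)

/-- `T` is an endomorphism of `A` over `ℚ̄`, up to isogeny, in terms of its action on
`H^1_dR(A / ℚ̄)`: the periods and quasi-periods of `T(w)` are linear combinations with algebraic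
coefficients of those of `w`. -/
def IsAlgebraicEnd (T : EndH g) : Prop := IsDeRhamBettiEnd QBar A.dR T

/-- The matrix of the Riemann form of the polarization in the basis of the lattice. -/
def riemannMatrix : MatC g := Matrix.of fun i j =>
  (∑ k, (A.η i k * A.lam j k - A.η j k * A.lam i k)) / (2 * Real.pi * Complex.I)

/-- The projector `P` is symmetric with respect to the polarization. -/
def IsSymmetric (P : MatC g) : Prop := Pᵀ * riemannMatrix A = riemannMatrix A * P

/-- The homology `H_1(A, ℂ)` is the sum of the planes `V_i = P_i H_1(A, ℂ)`, `i = 1, ..., g`, given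
by projectors `P_i` of rank two in `End(A) ⊗ ℂ` with `P_i End(A) P_i = ℂ P_i`. Each of them is the
homology of an elliptic curve (`P_i` is rational), or it is symmetric. -/
structure IsPlaneDecomposition (P : Fin g → MatC g) : Prop where
  algebraic : ∀ i, P i ∈ Submodule.span ℂ {M | ∃ T, IsAlgebraicEnd A T ∧ M = mat T}
  projector : ∀ i, P i * P i = P i
  sum : ∑ i, P i = 1
  plane : ∀ i, (P i).trace = 2
  scalar : ∀ i T, IsAlgebraicEnd A T → ∃ z : ℂ, P i * mat T * P i = z • P i
  type : ∀ i, (∃ E : EndH g, P i = mat E) ∨ IsSymmetric A (P i)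

/-- The homology of `A` is a sum of planes as above. -/
def IsSumOfPlanes : Prop := ∃ P : Fin g → MatC g, IsPlaneDecomposition A P

/-- `f` is a homomorphism (up to isogeny) from `A` to `B`: it is given by a linear map of the tangent
spaces, and the pull backs of the algebraic differential forms are algebraic. -/
def IsHomomorphism {g' : ℕ} (B : AbVar g') (f : A.H1 →ₗ[ℚ] B.H1) : Prop :=
  (∃ F : (Fin g → ℂ) →ₗ[ℂ] (Fin g' → ℂ), ∀ w, F (A.per w) = B.per (f w)) ∧
    ∃ e : Fin g' ⊕ Fin g' → Fin g ⊕ Fin g → QBar,
      ∀ i w, B.dR i (f w) = ∑ j, algebraMap QBar ℂ (e i j) * A.dR j w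

/-- A plane in the homology of an abelian variety `X`, one of the planes of a decomposition. -/
structure Plane where
  dim : ℕ
  X : AbVar dim
  P : Fin dim → MatC dim
  dec : IsPlaneDecomposition X P
  i : Fin dim

/-- All homomorphisms from `X` to `A` vanish on the plane. -/
def Plane.Avoids (V : Plane) : Prop := ∀ f, IsHomomorphism V.X A f → mat f * V.P V.i = 0

/-! ### Algebraic groups which contain the periods -/

/-- The basis of the Betti realization of `M₀ ⊕ H_1(A)`. -/
abbrev Betti (r g : ℕ) : Type := Fin r ⊕ Fin (2 * g)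

/-- The basis of the de Rham realization of `M₀ ⊕ H_1(A)`. -/
abbrev DeRham (r g : ℕ) : Type := Fin r ⊕ (Fin g ⊕ Fin g)

/-- The comparison isomorphism of `M₀ ⊕ H_1(A)`: the matrix `C` and the periods and quasi-periods of
the abelian variety. -/
def periodMatrix {r : ℕ} (C : Matrix (Fin r) (Fin r) ℂ) : Matrix (Betti r g) (DeRham r g) ℂ :=
  fromBlocks C 0 0 (Matrix.of fun j k => Sum.elim (A.lam j) (A.η j) k)

/-- A subgroup of `GL_R(ℂ)` defined by polynomials with rational coefficients. -/
def IsAlgebraicSubgroup {R : Type} [Fintype R] [DecidableEq R] (G : Subgroup (GL R ℂ)) : Prop :=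
  ∃ I : Set (MvPolynomial (R × R) ℚ), ∀ x : GL R ℂ, x ∈ G ↔
    ∀ p ∈ I, MvPolynomial.aeval (fun b : R × R => (x : Matrix R R ℂ) b.1 b.2) p = 0

/-- The comparison isomorphism `c` is an element of a torsor `G · T⁻¹` of `G`, defined over the
algebraic numbers: `T` is a matrix with algebraic entries (an isomorphism between the Betti side and
the de Rham side) such that `c T ∈ G`. -/
def ContainsPeriods {r : ℕ} (C : Matrix (Fin r) (Fin r) ℂ) (G : Subgroup (GL (Betti r g) ℂ)) :
    Prop := ∃ T : Matrix (DeRham r g) (Betti r g) ℂ, (∀ i j, IsAlgebraic ℚ (T i j)) ∧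
    ∃ x ∈ G, (x : Matrix (Betti r g) (Betti r g) ℂ) = periodMatrix A C * T

/-- The matrix of the multiplication by the complex number `z` on the tangent space
`H_1(A, ℝ) = ℂ ^ g`, in the basis of the lattice: the Hodge structure. -/
def hodge (z : ℂ) : MatC g := Matrix.of fun i j => ((A.lam.repr (z • A.lam i) j : ℝ) : ℂ)

/-- The Hodge group: the smallest algebraic group over `ℚ` which contains the image of the circle
under the Hodge structure. -/
def hodgeGroup : Subgroup (GL (Fin (2 * g)) ℂ) :=
  sInf {G | IsAlgebraicSubgroup G ∧ ∀ z : ℂ, ‖z‖ = 1 → ∃ x ∈ G, (x : MatC g) = hodge A z}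

/-! ### Proofs -/

theorem mat_eq (T : EndH g) : mat T = toC T := (toC_eq T).symm

theorem riemannMatrix_eq : riemannMatrix A = Pool.Agent.R917.GL.omM A := by
  have hl : ∀ j, A.per (Pi.single j 1) = A.lam j := by
    intro j
    unfold AbVar.per
    rw [Fintype.linearCombination_apply_single, one_smul]
  ext i j
  have h1 : ((A.om (Pi.single i 1) (Pi.single j 1) : ℚ) : ℂ) =
      ((A.E (A.lam i) (A.lam j) : ℝ) : ℂ) := by
    rw [← hl i, ← hl j, ← A.om_coe]
    exact (Complex.ofReal_ratCast _).symm
  change _ = ((A.om (Pi.single i 1) (Pi.single j 1) : ℚ) : ℂ)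
  rw [h1, A.E_coe]
  unfold riemannForm
  have h2 : ∀ i k, (∑ j, (A.lam.repr (A.lam i) j : ℂ) * A.η j k) = A.η i k := by
    intro i k
    rw [Finset.sum_eq_single i]
    · rw [Basis.repr_self, Finsupp.single_eq_same]
      push_cast
      ring
    · intro j _ hj
      rw [Basis.repr_self, Finsupp.single_eq_of_ne hj]
      push_cast
      ring
    · intro h
      exact absurd (Finset.mem_univ _) h
  simp only [h2]
  rfl

variable {A}

theorem dec_of {P : Fin g → MatC g} (hP : IsPlaneDecomposition A P) : Pool.Agent.H621.BC.DecH A P where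
  mem i := by
    have h1 : P i ∈ Submodule.span ℂ {Y | ∃ X ∈ A.EA, Y = toC X} := by
      refine Submodule.span_mono ?_ (hP.algebraic i)
      rintro _ ⟨T, hT, rfl⟩
      exact ⟨T, A.mem_EA.2 hT, mat_eq T⟩
    have h2 := Submodule.mem_map_of_mem (f := (matE (2 * g)).toLinearMap) h1
    rw [map_lie] at h2
    exact h2
  idem := hP.projector
  sum := hP.sum
  tr := hP.plane
  sc i T hT := by
    obtain ⟨z, hz⟩ := hP.scalar i T (A.mem_EA.1 hT)
    exact ⟨z, by rw [← mat_eq, hz]⟩
  ty i := by
    rcases hP.type i with ⟨E, hE⟩ | h
    · exact Or.inl ⟨E, by rw [hE, mat_eq]⟩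
    · refine Or.inr ?_
      rw [← riemannMatrix_eq]
      exact h

/-- the group of the block matrices -/
def blk (r g : ℕ) : MatC g →* Matrix (Betti r g) (Betti r g) ℂ where
  toFun x := fromBlocks 1 0 0 x
  map_one' := fromBlocks_one
  map_mul' x y := by
    rw [fromBlocks_multiply]
    simp only [Matrix.mul_zero, Matrix.zero_mul, add_zero, zero_add, Matrix.one_mul]

/-- the entries of the block matrices -/
def ent (r g : ℕ) (b : Betti r g × Betti r g) : MvPolynomial (Fin (2 * g) × Fin (2 * g)) ℚ :=
  match b with
  | (Sum.inl i, Sum.inl j) => if i = j then 1 else 0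
  | (Sum.inr i, Sum.inr j) => MvPolynomial.X (i, j)
  | _ => 0

theorem aeval_ent {r : ℕ} (x : MatC g) (b : Betti r g × Betti r g) :
    MvPolynomial.aeval (fun c : Fin (2 * g) × Fin (2 * g) => x c.1 c.2) (ent r g b) =
      blk r g x b.1 b.2 := by
  obtain ⟨i | i, j | j⟩ := b
  · change MvPolynomial.aeval _ (if i = j then 1 else 0) = (1 : Matrix (Fin r) (Fin r) ℂ) i j
    rw [Matrix.one_apply]
    split_ifs
    · exact map_one _
    · exact map_zero _
  · exact map_zero _
  · exact map_zero _
  · exact MvPolynomial.aeval_X _ _

theorem isAlg_comap {r : ℕ} {G : Subgroup (GL (Betti r g) ℂ)} (hG : IsAlgebraicSubgroup G) :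
    IsAlgebraicSubgroup (G.comap (Units.map (blk r g))) := by
  obtain ⟨I, hI⟩ := hG
  refine ⟨(fun p => MvPolynomial.bind₁ (ent r g) p) '' I, fun x => ?_⟩
  rw [Subgroup.mem_comap, hI]
  have key : ∀ p : MvPolynomial (Betti r g × Betti r g) ℚ,
      MvPolynomial.aeval (fun c : Fin (2 * g) × Fin (2 * g) => (x : MatC g) c.1 c.2)
        (MvPolynomial.bind₁ (ent r g) p) = MvPolynomial.aeval (fun b : Betti r g × Betti r g =>
          ((Units.map (blk r g) x : GL (Betti r g) ℂ) : Matrix (Betti r g) (Betti r g) ℂ)
            b.1 b.2) p := by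
    intro p
    rw [MvPolynomial.aeval_bind₁]
    congr 2
    funext b
    exact aeval_ent _ b
  constructor
  · rintro h _ ⟨p, hp, rfl⟩
    rw [key]
    exact h p hp
  · intro h p hp
    rw [← key]
    exact h _ ⟨p, hp, rfl⟩

theorem periods_of {r : ℕ} {C : Matrix (Fin r) (Fin r) ℂ} {G : Subgroup (GL (Betti r g) ℂ)}
    (hP : ContainsPeriods A C G) : ∃ T T' : Matrix (Betti r g) (Betti r g) ℂ, T * T' = 1 ∧
      (∀ i j, T' i j ∈ Pool.Agent.R917.QA) ∧ fromBlocks C 0 0 (Pool.Agent.R917.PM A) * T ∈
        {M : Matrix (Betti r g) (Betti r g) ℂ | ∃ x ∈ G, (x : Matrix _ _ ℂ) = M} := by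
  obtain ⟨T, hT, x, hx, hxT⟩ := hP
  let e : DeRham r g ≃ Betti r g := Equiv.sumCongr (Equiv.refl _) (Pool.Agent.R917.eqv g)
  have h1 : fromBlocks C 0 0 (Pool.Agent.R917.PM A) = (periodMatrix A C).submatrix id e.symm := by
    ext i j
    rcases i with i | i <;> rcases j with j | j
    · rfl
    · rfl
    · rfl
    · obtain ⟨k, rfl⟩ := (Pool.Agent.R917.eqv g).surjective j
      rw [fromBlocks_apply₂₂, Pool.Agent.R917.PM_apply, Matrix.submatrix_apply]
      have h2 : e.symm (Sum.inr ((Pool.Agent.R917.eqv g) k)) = Sum.inr k := by
        change Sum.inr ((Pool.Agent.R917.eqv g).symm ((Pool.Agent.R917.eqv g) k)) = _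
        rw [Equiv.symm_apply_apply]
      rw [h2]
      change _ = Sum.elim (A.lam i) (A.η i) k
      rcases k with k | k
      · change A.per (Pi.single i 1) k = _
        unfold AbVar.per
        rw [Fintype.linearCombination_apply_single, one_smul]
        rfl
      · change A.eta (Pi.single i 1) k = _
        unfold AbVar.eta
        rw [Fintype.linearCombination_apply_single, one_smul]
        rfl
  have h2 : fromBlocks C 0 0 (Pool.Agent.R917.PM A) * T.submatrix e.symm id =
      periodMatrix A C * T := by
    rw [h1, Matrix.submatrix_mul_equiv, Matrix.submatrix_id_id]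
  have h3 : (T.submatrix e.symm id).det ≠ 0 := by
    intro h0
    have h3 : (x : Matrix (Betti r g) (Betti r g) ℂ).det = 0 := by
      rw [hxT, ← h2, Matrix.det_mul, h0, mul_zero]
    exact (Matrix.GeneralLinearGroup.det x).ne_zero h3
  obtain ⟨T', h6, h7⟩ := Pool.Agent.R917.OM.alg_inv' (T := T.submatrix e.symm id)
    (fun i j => hT _ _) h3
  exact ⟨_, T', h6, h7, x, hx, by rw [hxT, h2]⟩

/-- **Theorem.** Let `C` be an invertible complex matrix of size `r`, with zeros below the blocks
given by `lev`. There are `m ≤ ∑ l, ⌊r_l / 2⌋` planes (which stand for simple abelian varieties) such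
that for all abelian varieties `A`, sums of planes, which avoid these planes, every algebraic group
over `ℚ` with a torsor over `ℚ̄` which contains the matrix `C ⊕ (periods of A)` contains `1 × x` for
all elements `x` of the Hodge group of `A`. -/
theorem result (r K : ℕ) (C : Matrix (Fin r) (Fin r) ℂ) (hC : IsUnit C.det)
    (lev : Fin r → Fin K) (hlev : ∀ i j, lev j < lev i → C i j = 0) :
    ∃ (m : ℕ) (V : Fin m → Plane), m ≤ ∑ l : Fin K, Fintype.card {i // lev i = l} / 2 ∧
      ∀ (g : ℕ) (A : AbVar g), IsSumOfPlanes A → (∀ k, (V k).Avoids A) →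
        ∀ G : Subgroup (GL (Betti r g) ℂ), IsAlgebraicSubgroup G → ContainsPeriods A C G →
          ∀ x ∈ hodgeGroup A, ∃ y ∈ G,
            (y : Matrix (Betti r g) (Betti r g) ℂ) = fromBlocks 1 0 0 (x : MatC g) := by
  classical
  have h1 : C * C⁻¹ = 1 := Matrix.mul_nonsing_inv _ hC
  have hB : Pool.Agent.H621.BC.BT lev C := hlev
  have hB' : Pool.Agent.H621.BC.BT lev C⁻¹ := by
    have hBT : C.BlockTriangular lev := fun i j hij => hlev i j hij
    letI : Invertible C := Matrix.invertibleOfIsUnitDet C hC
    have h2 := Matrix.blockTriangular_inv_of_blockTriangular hBT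
    exact fun i j hij => h2 hij
  -- the planes
  let Q : Type := {V : Plane // V.i ∈ (dec_of V.dec).toPT.C.Cn}
  let t : Q → Pool.Agent.H621.BC.Pln := fun q =>
    ⟨q.1.dim, q.1.X, (dec_of q.1.dec).toPT, ⟨q.1.i, q.2⟩⟩
  obtain ⟨m, p, hm, hp⟩ := Pool.Agent.H621.BC.exists_max (C := C) (C' := C⁻¹) hB hB' t
  refine ⟨m, fun k => (p k).1, ?_, fun g A hA hav G hG hGP => ?_⟩
  · refine hm.trans (le_of_eq ?_)
    rw [Finset.sum_range]
    refine Finset.sum_congr rfl fun l _ => ?_
    unfold Pool.Agent.H621.BC.cnt
    rw [Fintype.card_subtype]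
    congr 2
    ext i
    simp only [Finset.mem_filter, Finset.mem_univ, true_and]
    exact Fin.ext_iff.symm
  obtain ⟨P, hP⟩ := hA
  have hD := dec_of hP
  have hfree : ∀ Y ∈ A.NA, ((0, Y) : Pool.Agent.H621.BC.Al1 r g) ∈
      Pool.Agent.H621.BC.L1 C C⁻¹ A := by
    intro Y hY
    refine Pool.Agent.H621.BC.free_of hD.toPT (fun c => ?_) hY
    by_contra hcon
    push Not at hcon
    refine hp ⟨⟨g, A, P, hP, c.1⟩, c.2⟩ (fun z hz h0 => hcon z hz h0) fun k f hf => ?_
    change f.baseChange ℂ ∘ₗ (dec_of (p k).1.dec).toPT.S.pr (p k).1.i = 0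
    rw [(dec_of (p k).1.dec).pr_eq]
    exact Pool.Agent.H621.BC.comp_zero f _ (hav k f hf)
  obtain ⟨T, T', hT, hT', hpt⟩ := periods_of hGP
  have hgrp := Pool.Agent.R917.algGrp_of hG
  have hst := Pool.Agent.H621.BC.stab_L1 hgrp h1 hT hT' hpt
  have hle : hodgeGroup A ≤ G.comap (Units.map (blk r g)) := by
    refine sInf_le ⟨isAlg_comap hG, fun z hz => ?_⟩
    obtain ⟨y, hy, hyM⟩ := Pool.Agent.H621.BC.hodge_mem hgrp hst hfree hz
    have hz0 : z ≠ 0 := by
      rintro rfl
      rw [norm_zero] at hz
      exact zero_ne_one hz
    let x : GL (Fin (2 * g)) ℂ := ⟨Pool.Agent.R917.hm A z, Pool.Agent.R917.hm A z⁻¹, by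
      rw [← Pool.Agent.R917.hm_mul, mul_inv_cancel₀ hz0, Pool.Agent.R917.hm_one], by
      rw [← Pool.Agent.R917.hm_mul, inv_mul_cancel₀ hz0, Pool.Agent.R917.hm_one]⟩
    refine ⟨x, ?_, rfl⟩
    rw [Subgroup.mem_comap]
    have hxy : Units.map (blk r g) x = y := by
      apply Units.ext
      rw [hyM]
      rfl
    rw [hxy]
    exact hy
  intro x hx
  exact ⟨_, hle hx, rfl⟩

end Pool.Agent.Results.MP_77d3f5_ag.BoundedCapture
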